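import Pool.Agent.helper11.VDI.SpecC

/-!
# Project INF (MP_07c750_an), row LBZ
-/

set_option autoImplicit false

open scoped ContDiff Topology InnerProductSpace ENNReal ComplexConjugate
open MeasureTheory Filter Set

namespace Pool.Agent.VDI

open Pool.Agent.RPQ (PN PJ UN upd IsOp)
open Pool.Agent.VQ (CH AdZ perZ rk)
open Pool.Agent.VN (aN)
open Pool.Agent.VD
open Pool.Agent.VDE (UWLD FDX)

theorem LBZ_exp (i : ℕ) (t M : ℝ) (h : |t| ≤ M) : ‖iteratedFDeriv ℝ i Real.exp t‖ ≤ Real.exp M := by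
  rw [norm_iteratedFDeriv_eq_norm_iteratedDeriv, iteratedDeriv_eq_iterate, Real.iter_deriv_exp, Real.norm_eq_abs,
    abs_of_pos (Real.exp_pos t)]
  exact Real.exp_le_exp.2 ((le_abs_self t).trans h)

theorem LBZ_proof : LBZ_stmt := by
  intro d n M hM
  refine ⟨2 ^ n * (n.factorial * Real.exp M * M ^ n), ?_, ?_⟩
  · have h1 : (1 : ℝ) ≤ 2 ^ n := one_le_pow₀ (by norm_num)
    have h2 : (1 : ℝ) ≤ n.factorial := by exact_mod_cast Nat.one_le_iff_ne_zero.2 n.factorial_ne_zero
    have h3 : (1 : ℝ) ≤ Real.exp M := Real.one_le_exp (by linarith)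
    have h4 : (1 : ℝ) ≤ M ^ n := one_le_pow₀ hM
    exact one_le_mul_of_one_le_of_one_le h1 (one_le_mul_of_one_le_of_one_le (one_le_mul_of_one_le_of_one_le h2 h3) h4)
  · intro f A x s hf hA hs hb
    have hM0 : (0 : ℝ) ≤ M := by linarith
    have hf0 : |f x| ≤ M := by
      have h1 := (hb 0 (Nat.zero_le n)).1
      rw [norm_iteratedFDeriv_zero, Real.norm_eq_abs] at h1
      exact h1
    have he : ContDiff ℝ ∞ fun y => Real.exp (f y) := Real.contDiff_exp.comp hf
    have hE : ∀ j ≤ n, ‖iteratedFDeriv ℝ j (fun y => Real.exp (f y)) x‖ ≤ n.factorial * Real.exp M * M ^ n := by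
      intro j hj
      have h1 : ‖iteratedFDeriv ℝ j (Real.exp ∘ f) x‖ ≤ j.factorial * Real.exp M * M ^ j := by
        refine norm_iteratedFDeriv_comp_le (N := ∞) (n := j) Real.contDiff_exp hf (by exact_mod_cast le_top) x
          (fun i _ => LBZ_exp i (f x) M hf0) fun i hi1 hij => ?_
        refine (hb i (hij.trans hj)).1.trans ?_
        calc M = M ^ 1 := (pow_one M).symm
          _ ≤ M ^ i := pow_le_pow_right₀ hM hi1
      refine h1.trans ?_
      have h2 : (j.factorial : ℝ) ≤ n.factorial := by exact_mod_cast Nat.factorial_le hj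
      have h3 : M ^ j ≤ M ^ n := pow_le_pow_right₀ hM hj
      have h4 : 0 ≤ Real.exp M := (Real.exp_pos M).le
      exact mul_le_mul (mul_le_mul_of_nonneg_right h2 h4) h3 (by positivity) (by positivity)
    have h := norm_iteratedFDeriv_smul_le (𝕜 := ℝ) he hA x (n := n) (by exact_mod_cast le_top)
    refine h.trans ?_
    have h5 : ∀ i ∈ Finset.range (n + 1), (n.choose i : ℝ) * ‖iteratedFDeriv ℝ i (fun y => Real.exp (f y)) x‖ *
        ‖iteratedFDeriv ℝ (n - i) A x‖ ≤ (n.choose i : ℝ) * ((n.factorial * Real.exp M * M ^ n) * s) := by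
      intro i hi
      rw [Finset.mem_range] at hi
      rw [mul_assoc]
      refine mul_le_mul_of_nonneg_left ?_ (by positivity)
      exact mul_le_mul (hE i (by omega)) (hb (n - i) (by omega)).2 (norm_nonneg _) (by positivity)
    refine (Finset.sum_le_sum h5).trans ?_
    rw [← Finset.sum_mul]
    have h6 : ∑ i ∈ Finset.range (n + 1), (n.choose i : ℝ) = 2 ^ n := by exact_mod_cast Nat.sum_range_choose n
    rw [h6]
    apply le_of_eq
    ring

end Pool.Agent.VDI
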